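import Pool.Agent.Lib.MP_278fbd_co.HR.P.ci
import Pool.Agent.Lib.MP_278fbd_co.HR.P.ic
import Pool.Agent.Lib.MP_278fbd_co.HR.P.sw
import Pool.Agent.Lib.MP_278fbd_co.HR.P.cw
import Pool.Agent.Lib.MP_278fbd_co.HR.P.ax
import Pool.Agent.Lib.MP_278fbd_co.HR.P.av
import Pool.Agent.Lib.MP_278fbd_co.HR.P.gr
import Pool.Agent.Lib.MP_278fbd_co.HR.P.th
import Pool.Agent.Lib.MP_278fbd_co.HR.P.lp
import Pool.Agent.Lib.MP_278fbd_co.HR.P.du
import Pool.Agent.Lib.MP_278fbd_co.HR.P.sub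
import Pool.Agent.Lib.MP_278fbd_co.HR.P.nb
import Pool.Agent.Lib.MP_278fbd_co.HR.P.cnt
import Pool.Agent.Lib.MP_278fbd_co.HR.P.hit
import Pool.Agent.Lib.MP_278fbd_co.HR.P.rt
import Pool.Agent.Lib.MP_278fbd_co.HR.P.ch
import Pool.Agent.Lib.MP_278fbd_co.HR.P.gd
import Pool.Agent.Lib.MP_278fbd_co.HR.P.yf
import Pool.Agent.Lib.MP_278fbd_co.HR.P.ld
import Pool.Agent.Lib.MP_278fbd_co.HR.P.de
import Pool.Agent.Lib.MP_278fbd_co.HR.P.as
import Pool.Agent.Lib.MP_278fbd_co.HR.P.bl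

/-!
# MP_278fbd_co, project HR: assembly
-/

set_option autoImplicit false

namespace Pool.Agent.MP_278fbd_co.HR

theorem dual_two_log_two : DualHR (1 / (2 * Real.log 2)) :=
  p_th (p_ax p_cw) p_av p_gr

theorem dual_to_frac : S_du := p_du p_ci p_lp

theorem frac_to_dense : S_de :=
  p_de p_nb (p_gd p_cnt (p_rt p_cnt p_hit) (p_ch p_cnt)) (p_yf (p_sw p_ci p_ic) p_sub) (p_ld p_cnt)

theorem dense_to_asym : S_as := p_as

theorem asym_to_dual : S_bl := p_bl p_ic p_cw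

theorem p_fin : S_fin := by
  have h1 : FracHR (1 / (2 * Real.log 2)) := dual_to_frac _ dual_two_log_two
  refine ⟨h1, frac_to_dense _ h1, fun c => ⟨⟨frac_to_dense c, fun h => ?_⟩, ⟨fun h => ?_, fun h => ?_⟩⟩⟩
  · exact dual_to_frac c (asym_to_dual c (dense_to_asym c h))
  · exact dense_to_asym c (frac_to_dense c h)
  · exact dual_to_frac c (asym_to_dual c h)

end Pool.Agent.MP_278fbd_co.HR
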