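import Mathlib

/-!
# MP_278fbd_co, project HR (fractional and dense forms of the Hoang-Reed conjecture): definitions
-/

set_option autoImplicit false

namespace Pool.Agent.MP_278fbd_co.HR

/-- `C` is the vertex set of a directed cycle of `G` (with at least two vertices). -/
def IsCyc {V : Type} (G : Digraph V) (C : Finset V) : Prop :=
  ∃ (k : ℕ) (f : Fin k → V), 2 ≤ k ∧ Function.Injective f ∧ Set.range f = (C : Set V) ∧
    ∀ i : Fin k, G.Adj (f i) (f (finRotate k i))

/-- The fractional form of the Hoang-Reed conjecture with the constant `c`: in every finite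
loopless digraph with all out-degrees at least `r` there are weights `y C x ≥ 0` on the pairs of
(the vertex set of) a directed cycle `C` and a vertex `x` of `C`, such that the pairs with
`v ∈ C`, `v ≠ x` have total weight at most `1` for every vertex `v`, and all pairs together have
total weight at least `c r`. -/
def FracHR (c : ℝ) : Prop :=
  ∀ (V : Type) [Fintype V] [DecidableEq V] [Nonempty V] (G : Digraph V),
    (∀ v, ¬ G.Adj v v) → ∀ r : ℕ, (∀ v, r ≤ {w | G.Adj v w}.ncard) →
      ∃ y : Finset V → V → ℝ, (∀ C x, 0 ≤ y C x) ∧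
        (∀ C x, y C x ≠ 0 → IsCyc G C ∧ x ∈ C) ∧
        (∀ v, ∑ C : Finset V, ∑ x : V, (if v ∈ C ∧ v ≠ x then y C x else 0) ≤ 1) ∧
        c * r ≤ ∑ C : Finset V, ∑ x : V, y C x

/-- The form for dense digraphs with the constant `c`: for `α, ε > 0` there are `K` and `n₀` such
that every loopless digraph on `n ≥ n₀` vertices with all out-degrees at least `r ≥ α n` has a
set `X` of at most `K` vertices and at least `(c - ε) r` directed cycles, each with at most `K`
vertices and with exactly one vertex in `X`, which are pairwise disjoint outside `X`. -/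
def DenseHR (c : ℝ) : Prop :=
  ∀ α : ℝ, 0 < α → ∀ ε : ℝ, 0 < ε → ∃ K n₀ : ℕ,
    ∀ (V : Type) [Fintype V] (G : Digraph V), (∀ v, ¬ G.Adj v v) → n₀ ≤ Fintype.card V →
      ∀ r : ℕ, α * Fintype.card V ≤ r → (∀ v, r ≤ {w | G.Adj v w}.ncard) →
        ∃ (X : Finset V) (k : ℕ) (C : Fin k → Finset V), X.card ≤ K ∧ (c - ε) * r ≤ k ∧
          (∀ l, IsCyc G (C l) ∧ (C l).card ≤ K ∧ ∃! x, x ∈ C l ∧ x ∈ X) ∧
          ∀ l m, l ≠ m → ∀ x ∈ C l, x ∈ C m → x ∈ X

/-- The asymptotic form of the Hoang-Reed conjecture for dense digraphs with the constant `c`: for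
`α, ε > 0` there is an `n₀` such that every loopless digraph on `n ≥ n₀` vertices with all
out-degrees at least `r ≥ α n` has a sequence of at least `(c - ε) r` directed cycles, each of
which shares at most one vertex with the union of the cycles before it. -/
def AsymHR (c : ℝ) : Prop :=
  ∀ α : ℝ, 0 < α → ∀ ε : ℝ, 0 < ε → ∃ n₀ : ℕ,
    ∀ (V : Type) [Fintype V] (G : Digraph V), (∀ v, ¬ G.Adj v v) → n₀ ≤ Fintype.card V →
      ∀ r : ℕ, α * Fintype.card V ≤ r → (∀ v, r ≤ {w | G.Adj v w}.ncard) →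
        ∃ (k : ℕ) (C : Fin k → Finset V), (c - ε) * r ≤ k ∧ (∀ l, IsCyc G (C l)) ∧
          ∀ l : Fin k, ((C l : Set V) ∩ ⋃ i : Fin k, ⋃ (_ : i < l), (C i : Set V)).ncard ≤ 1

/-! ### auxiliary notions -/

/-- `x → l₀ → l₁ → ... → l_last → x` is a directed cycle. -/
def CycL {V : Type} (G : Digraph V) (x : V) (l : List V) : Prop :=
  l ≠ [] ∧ (x :: l).Nodup ∧ (x :: (l ++ [x])).IsChain G.Adj

/-- The dual form with the constant `c`. -/
def DualHR (c : ℝ) : Prop :=
  ∀ (V : Type) [Fintype V] [Nonempty V] (G : Digraph V), (∀ v, ¬ G.Adj v v) →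
    ∀ r : ℕ, (∀ v, r ≤ {w | G.Adj v w}.ncard) →
      ∀ z : V → ℝ, (∀ v, 0 ≤ z v) → (∀ x l, CycL G x l → 1 ≤ (l.map z).sum) →
        c * r ≤ ∑ v, z v

/-- `F(t)` for the cost function `b = a v` of one vertex. -/
noncomputable def FF {V : Type} [Fintype V] (z b : V → ℝ) (t : ℝ) : ℝ :=
  ∑ u, min (z u) (max 0 (t - b u))

/-- The vertices which are active at the time `t`. -/
def SS {V : Type} (z b : V → ℝ) (t : ℝ) : Set V := {u | b u ≤ t ∧ t < b u + z u}

/-- The properties of the cost functions `a v u` of the cheapest walks. -/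
structure Cost {V : Type} (G : Digraph V) (z : V → ℝ) (a : V → V → ℝ) : Prop where
  nn : ∀ v u, 0 ≤ a v u
  out : ∀ v u, G.Adj v u → a v u = 0
  step : ∀ v u w, G.Adj u w → a v w ≤ a v u + z u
  self : ∀ v, 1 ≤ a v v
  pair : ∀ v u, v ≠ u → 1 - min (z v) (z u) ≤ a v u + a u v

/-- `f` is a good sample with the centres `X`. -/
structure Good {V : Type} [Fintype V] (G : Digraph V) (X : Finset V) (β : ℝ) (e : ℝ) {q : ℕ}
    (f : Fin q → V) : Prop where
  inj : Function.Injective f
  avoid : ∀ i, f i ∉ X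
  deg : ({i : Fin q | (({j : Fin q | G.Adj (f i) (f j)}.ncard : ℕ) : ℝ) < β * q}.ncard : ℝ) ≤
    e * q
  root : ∀ i j l, G.Adj (f l) (f i) → G.Adj (f j) (f l) →
    ∃ x ∈ X, G.Adj x (f i) ∧ G.Adj (f j) x

end Pool.Agent.MP_278fbd_co.HR
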