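import Pool.Agent.Lib.MP_278fbd_co.HR.Defs

/-!
# MP_278fbd_co, project HR: the pieces

Theorem 1: `FracHR (1 / (2 * Real.log 2))`. Theorem 2: `DenseHR (1 / (2 * Real.log 2))`. Theorem 3: for
every real `c`, `FracHR c ↔ DenseHR c` and `FracHR c ↔ AsymHR c`.

Every piece is the theorem `p_<name> (h_<x> : S_<x>) … : S_<name>` in `HR/P/<name>.lean`, the used pieces
as hypotheses in the order in which the docstring names them; auxiliary lemmas are private or have the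
prefix `<name>_`. `n` is the number of vertices.
-/

set_option autoImplicit false

namespace Pool.Agent.MP_278fbd_co.HR

open Finset

/-! ## A. directed cycles -/

/-- [ci] No hypotheses. From a list to a vertex set.

PROOF. `k = l.length + 1 ≥ 2` (`l ≠ []`), `f i = (x :: l)[i]` (`List.get`). Injective: `Nodup`. Range: the
members of `x :: l`. For `i < l.length` `finRotate k i = i + 1` (`finRotate_of_lt`; write
`k = (l.length) + 1`) and `(x :: l)[i] → (x :: l)[i+1]` is an entry of the chain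
`(x :: l) ++ [x]` (`List.isChain_iff_getElem` or similar); for `i = l.length` `finRotate_last'` gives `0` and
the last entry of `x :: l` → `x` is the last step of the chain. -/
def S_ci : Prop := ∀ (V : Type) [DecidableEq V] (G : Digraph V) (x : V) (l : List V), CycL G x l →
  IsCyc G (insert x l.toFinset)

/-- [ic] No hypotheses. From a vertex set to a list with a given first vertex.

PROOF. Let `x = f i₀`. Rotate: `g j = f (i₀ + j)` (`j : Fin k`, addition in `Fin k`, `k ≥ 2` so `k ≠ 0`;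
`finRotate k i = i + 1` by `finRotate_apply`/`finRotate_succ_apply`), so `g 0 = x`, `g` injective with the
same range and `G.Adj (g j) (g (j + 1))` for all `j : Fin k`. `l` = the list of the `g j`,
`j = 1, …, k - 1`, in this order (e.g. `(List.ofFn g).tail`, `List.ofFn g = x :: l`). `l ≠ []` as `k ≥ 2`;
`Nodup` from injectivity (`List.nodup_ofFn`); the chain `x :: (l ++ [x])` from the arcs
(`(k - 1) + 1 = 0` in `Fin k`); `l.toFinset = C.erase x` from the range and `Nodup`. -/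
def S_ic : Prop := ∀ (V : Type) [DecidableEq V] (G : Digraph V) (C : Finset V) (x : V), IsCyc G C →
  x ∈ C → ∃ l : List V, CycL G x l ∧ l.toFinset = C.erase x

/-- [sw] Hypotheses `S_ci`, `S_ic`. Change of one vertex of a cycle.

PROOF. `l` from `S_ic`. `p` = first entry, `p'` = last entry of `l` (perhaps `p = p'`). `G.Adj x p`,
`G.Adj p' x`, `p, p' ∈ C.erase x`. If `x' ∉ C.erase x = l.toFinset`, `x' → p`, `p' → x'` then `CycL G x' l`, and
`S_ci` gives `IsCyc G (insert x' l.toFinset)`. -/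
def S_sw : Prop := ∀ (V : Type) [DecidableEq V] (G : Digraph V) (C : Finset V) (x : V), IsCyc G C →
  x ∈ C → ∃ p ∈ C.erase x, ∃ p' ∈ C.erase x, G.Adj x p ∧ G.Adj p' x ∧
    ∀ x', x' ∉ C.erase x → G.Adj x' p → G.Adj p' x' → IsCyc G (insert x' (C.erase x))

/-- [cw] No hypotheses. Closed walks are at least as expensive as cycles.

PROOF. (0) If a list is not `Nodup` it is `l₁ ++ a :: (l₂ ++ a :: l₃)` (induction on the list). (1) Induction
on `l.length` (strong), for all `v`. `l = []`: the chain `[v, v]` gives `G.Adj v v`, impossible. If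
`(v :: l).Nodup` then `CycL G v l`. Otherwise decompose `v :: l` by (0). If `l₁ = []` then `a = v`,
`l = l₂ ++ v :: l₃`; `v :: (l₂ ++ [v])` is a chain (a prefix of the given one), so `1 ≤ ∑ l₂ ≤ ∑ l` by the
induction hypothesis (`z ≥ 0`). If `l₁ = v :: l₁'` then `l = l₁' ++ a :: (l₂ ++ a :: l₃)` and
`v :: ((l₁' ++ a :: l₃) ++ [v])` is a chain (`List.isChain_append` / `isChain_split`), the induction
hypothesis applies to `l₁' ++ a :: l₃`. -/
def S_cw : Prop := ∀ (V : Type) (G : Digraph V) (z : V → ℝ), (∀ v, ¬ G.Adj v v) → (∀ v, 0 ≤ z v) →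
  (∀ x l, CycL G x l → 1 ≤ (l.map z).sum) →
  ∀ (l : List V) (v : V), (v :: (l ++ [v])).IsChain G.Adj → 1 ≤ (l.map z).sum

/-! ## B. the fractional theorem in the dual form -/

/-- [ax] Hypothesis `S_cw`. The costs of the cheapest walks.

PROOF. For `v u` let `T v u` be the set of the reals `c` with `c = 1` or `c = (l.map z).sum` for some list `l` with
`(v :: (l ++ [u])).IsChain G.Adj` (an infinite set in general, that does not matter), and
`a v u = sInf (T v u)`. `T v u` is not empty and bounded below by `0`; so `0 ≤ a v u ≤ 1`. `out`: `l = []` gives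
`0 ∈ T v u`. `step`: for every `c ∈ T v u` we have `a v w ≤ c + z u`: if `c = 1`, `a v w ≤ 1`; otherwise
`l ++ [u]` shows `c + z u ∈ T v w`; now take the infimum (`le_csInf` for `a v w - z u ≤ a v u`).
`self`: all elements of `T v v` are `≥ 1` by `S_cw`. `pair`: for `c ∈ T v u`, `c' ∈ T u v` we show
`1 - min (z v) (z u) ≤ c + c'`: clear if one of them is `1`
(the other one and `z` are `≥ 0`); otherwise with the lists `l`, `l'`: `l ++ u :: l'` is the inner part of a closed walk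
at `v`, so `1 ≤ c + z u + c'` (`S_cw`), and `l' ++ v :: l` of a closed walk at `u`, so `1 ≤ c' + z v + c`. Then
take the infimum over `c` and over `c'`. -/
def S_ax : Prop := ∀ (V : Type) (G : Digraph V) (z : V → ℝ), (∀ v, ¬ G.Adj v v) → (∀ v, 0 ≤ z v) →
  (∀ x l, CycL G x l → 1 ≤ (l.map z).sum) → ∃ a : V → V → ℝ, Cost G z a

/-- [av] No hypotheses. A vertex with a small ball of radius `1/2`.

PROOF. `M = ∑ z`. Suppose `M ≠ 0`, so `M > 0`. For `u v` put `P v u = min (z u) (max 0 (1/2 - a v u))`, so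
`FF z (a v) (1/2) = ∑_u P v u`. Claim: `z v * P v u + z u * P u v ≤ z v * z u` for `u ≠ v`, and `P v v = 0`.
`P v v = 0` as `a v v ≥ 1` and `z v ≥ 0`. For `u ≠ v`: if `a v u ≥ 1/2` then `P v u = 0` and `P u v ≤ z v`; the
same if `a u v ≥ 1/2`. Otherwise `P v u + P u v ≤ 1 - a v u - a u v ≤ min (z v) (z u)`, so the left side is
at most `max (z v) (z u) * min (z v) (z u) = z v * z u`. Summing over all ordered pairs,
`2 ∑_v z v * FF z (a v) (1/2) ≤ M ^ 2 - ∑_v z v ^ 2 < M ^ 2` (`M > 0` gives some `z v > 0`). If all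
`FF z (a v) (1/2) ≥ M / 2` then `∑_v z v * FF … ≥ M ^ 2 / 2`, a contradiction. -/
def S_av : Prop := ∀ (V : Type) [Fintype V] [Nonempty V] (G : Digraph V) (z : V → ℝ)
  (a : V → V → ℝ), (∀ v, 0 ≤ z v) → Cost G z a →
  ∃ v, ∑ u, z u = 0 ∨ FF z (a v) (1 / 2) < (∑ u, z u) / 2

/-- [gr] No hypotheses. The growth lemma (`κ = 2 log 2`).

PROOF. If `M = ∑ z = 0` then `z = 0`, `SS z b 0 = ∅`, `FF z b 0 = 0`: take `t = 0`. Otherwise suppose that
`κ (M - FF z b t) < #SS z b t` for all `t ∈ [0, 1/2)`. Every summand `min (z u) (max 0 (t - b u))` of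
`F = FF z b` has at `t` the right derivative `1` if `b u ≤ t < b u + z u` and `0` otherwise (three cases:
`t < b u`, `b u ≤ t < b u + z u`, `b u + z u ≤ t`; near `t` on the right the summand is `0`, `s - b u`, `z u`;
`HasDerivWithinAt … (Ici t) t` by `congr_of_eventuallyEq`), so `F` has the right derivative `#SS z b t`, and it
is continuous. `h t = exp (κ t) * (M - F t)` has the right derivative
`exp (κ t) * (κ (M - F t) - #SS z b t) ≤ 0` on `[0, 1/2)`, so `h (1/2) ≤ h 0`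
(`image_le_of_deriv_right_le_deriv_boundary` with the constant function). `exp (κ / 2) = 2`,
`F 0 = 0` (`b ≥ 0`, `z ≥ 0`): `2 (M - F (1/2)) ≤ M`, so `F (1/2) ≥ M / 2`, a contradiction. -/
def S_gr : Prop := ∀ (V : Type) [Fintype V] (z b : V → ℝ), (∀ v, 0 ≤ z v) → (∀ v, 0 ≤ b v) →
  (∑ u, z u = 0 ∨ FF z b (1 / 2) < (∑ u, z u) / 2) →
  ∃ t : ℝ, 0 ≤ t ∧ t < 1 / 2 ∧
    ((SS z b t).ncard : ℝ) ≤ 2 * Real.log 2 * ((∑ u, z u) - FF z b t)

/-- [th] Hypotheses `S_ax`, `S_av`, `S_gr`. THEOREM 1 in the dual form.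

PROOF. `κ = 2 log 2 > 0`; we show `r ≤ κ ∑ z`. Strong induction on `Fintype.card V` (for all `V`, `G`, `r`, `z`).
`r = 0` is trivial (`z ≥ 0`). `a` from `S_ax`, `v` from `S_av`, `t` from `S_gr` with `b = a v`; `S = SS z b t`,
`B = {u | b u + z u ≤ t}`. (1) `v ∉ B`: `b v ≥ 1 > t`. (2) `G.Adj v w` implies `b w = 0 ≤ t`, so `w ∈ B ∪ S`.
(3) `u ∈ B`, `G.Adj u w` imply `b w ≤ b u + z u ≤ t`, so `w ∈ B ∪ S`. (4) `∑_(u ∈ B) z u ≤ FF z b t`: for
`u ∈ B` `t - b u ≥ z u ≥ 0`, so the summand is `z u`; the other summands are `≥ 0`. If `r ≤ S.ncard` then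
`r ≤ κ (M - FF z b t) ≤ κ M`. Otherwise `S.ncard < r`. `B ≠ ∅`: `v` has `≥ r > S.ncard` out-neighbours in
`B ∪ S`. The induced digraph on the type `↥B` (`Adj u w := G.Adj u w`; `card < card V` by (1)) is loopless, all
its out-degrees are `≥ r - S.ncard` (by (3): the out-neighbours of `u ∈ B` are in `B ∪ S`), and every `CycL` of it
gives a `CycL` of `G` by `List.map Subtype.val` with the same cost. By induction
`r - S.ncard ≤ κ ∑_(u ∈ B) z u ≤ κ FF z b t`, and adding `S.ncard ≤ κ (M - FF z b t)` we get `r ≤ κ M`. -/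
def S_th : Prop := DualHR (1 / (2 * Real.log 2))

/-! ## C. duality -/

/-- [lp] No hypotheses. Duality for fractional packings.

PROOF. If `c ≤ 0` take `y = 0`. `J` is not empty (otherwise `z = 0` gives `c ≤ 0`). Let
`L y v = ∑_j (if v ∈ B j then y j else 0)`, a linear map `(J → ℝ) → (U → ℝ)`,
`K = L '' (c • stdSimplex ℝ J)` (compact, convex) and `D = {x | ∀ v, x v ≤ 1}` (closed, convex). If they meet
we are done (`y ∈ c • stdSimplex`, `∑ y = c`). Otherwise `geometric_hahn_banach_closed_compact` (or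
`..._compact_closed`) gives a continuous linear `f` and `u` with `f x < u` for `x ∈ D`, `u < f k` for
`k ∈ K`. `f x = ∑_v z v * x v` (`LinearMap.pi_apply_eq_sum_univ`). `z v ≥ 0`: `-s • e_v ∈ D` for all
`s ≥ 0` and `f` is bounded above on `D`. `x = 1 ∈ D`: `∑ z < u`. For `j`, `c • e_j`:
`u < c ∑_(v ∈ B j) z v`. So `∑_v z v < c ∑_(v ∈ B j) z v` for all `j`. Let
`m = min_j ∑_(v ∈ B j) z v`; `m > 0` since `∑ z ≥ 0`, `c > 0`. The weights `z / m` satisfy the condition, so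
`c ≤ (∑ z) / m < c`, a contradiction. (Compare `Lib/MP_dd827d_co/LP.lean`, `farkas`.) -/
def S_lp : Prop := ∀ (U J : Type) [Fintype U] [DecidableEq U] [Fintype J] (B : J → Finset U) (c : ℝ),
  (∀ z : U → ℝ, (∀ v, 0 ≤ z v) → (∀ j, 1 ≤ ∑ v ∈ B j, z v) → c ≤ ∑ v, z v) →
  ∃ y : J → ℝ, (∀ j, 0 ≤ y j) ∧ (∀ v, ∑ j, (if v ∈ B j then y j else 0) ≤ 1) ∧ c ≤ ∑ j, y j

/-- [du] Hypotheses `S_ci`, `S_lp`. From the dual form to the fractional form.

PROOF. Given `V, G, r`. `J` = the type of the pairs `j = (C, x) : Finset V × V` with `IsCyc G C ∧ x ∈ C`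
(a subtype; classical `Fintype`), `B j = C.erase x`. The condition of `S_lp` with the constant `c * r`: let
`z ≥ 0` with `1 ≤ ∑_(v ∈ C.erase x) z v` for all pairs. For a `CycL G x l`: `IsCyc G (insert x l.toFinset)`
(`S_ci`), and `(insert x l.toFinset).erase x = l.toFinset` (`x ∉ l`), `(l.map z).sum = ∑_(v ∈ l.toFinset) z v`
(`Nodup`), so `1 ≤ (l.map z).sum`; `DualHR c` gives `c * r ≤ ∑ z`. Define `y C x` as the weight of the pair if it
is in `J` and `0` otherwise; `v ∈ C.erase x ↔ v ∈ C ∧ v ≠ x`. -/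
def S_du : Prop := ∀ c : ℝ, DualHR c → FracHR c

/-- [sub] No hypotheses. The fractional form inside a set of vertices.

PROOF. Apply `FracHR c` to the type `↥I` (nonempty) with `Adj i j := G.Adj i j`. Transport `y'` by
`y C x = y' (C.subtype (· ∈ I)) ⟨x, _⟩` if `C ⊆ I` and `x ∈ I`, and `0` otherwise (or by sums over
`Finset.map (Embedding.subtype _)`, which is a bijection from `Finset ↥I` to the subsets of `I`). A cycle `f` of
the induced digraph gives the cycle `Subtype.val ∘ f`. The number of out-neighbours of `i` in `I` is the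
out-degree in the induced digraph. For `v ∉ I` the load is `0`. -/
def S_sub : Prop := ∀ c : ℝ, FracHR c → ∀ (A : Type) [Fintype A] [DecidableEq A] (G : Digraph A)
  (I : Finset A) (r : ℕ), I.Nonempty → (∀ v, ¬ G.Adj v v) →
  (∀ v ∈ I, r ≤ {w | w ∈ I ∧ G.Adj v w}.ncard) →
  ∃ y : Finset A → A → ℝ, (∀ C x, 0 ≤ y C x) ∧
    (∀ C x, y C x ≠ 0 → IsCyc G C ∧ x ∈ C ∧ C ⊆ I) ∧
    (∀ v, ∑ C : Finset A, ∑ x : A, (if v ∈ C ∧ v ≠ x then y C x else 0) ≤ 1) ∧
    c * r ≤ ∑ C : Finset A, ∑ x : A, y C x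

/-! ## D. the nibble -/

/-- [nb] No hypotheses (uses `NW_pad` of `Pool/Agent/Lib/MP_8b7544_co/Df/NW.lean`, import it:
`theorem Pool.Agent.Lib.MP_8b7544_co.Df.NW_pad`).

PROOF. We may suppose `η ≤ 1`, and restrict to the subtype of the `k` with `ω k ≠ 0` (so all sizes are in
`[1, R]`, `R ≥ 1`). Let `ε' ` be from `NW_pad` for `R + 1` and `η / 4`; `ε = min ε' (η ε' / 8)` (and `≤ 1/8`-type
bounds as needed below). Let `N = card U`, `Y = ∑ ω`. `Y ≤ N` (every edge has a vertex, loads `≤ 1`). If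
`Y ≤ η N` take `I = ∅`. So `Y > η N ≥ η / ε ≥ 8 / ε'`. Let `m = ⌊Y⌋₊ ≥ 1`, `m ≤ N`. New vertices:
`U ⊕ Fin m`. New edges: for `k` and `a : Fin m` the set `B k ∪ {a}` with the weight `ω k / Y`; for `u : U` the
singleton `{u}` with the weight `1 - (m / Y) * load u ≥ 0`. Loads: `u`: `m * (ω-load u) / Y + (1 - …) = 1`;
`a`: `∑_k ω k / Y = 1`. Codegrees: `u ≠ v` in `U`: `(m / Y) * (codegree) ≤ ε ≤ ε'`; `u, a`: `load u / Y ≤ 1 / Y ≤ ε'`;
`a ≠ a'`: `0`. The number of vertices is `≥ N ≥ 1 / ε'`, sizes in `[1, R + 1]`. `NW_pad` gives disjoint edges which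
cover all vertices but at most `(η / 4) (N + m) ≤ (η / 2) N`. Every covered `a` is in an edge `B k ∪ {a}`, and
different `a` have different `k` (`B k` is not empty, the edges are disjoint). The set of these `k` has at
least `m - (η / 2) N ≥ Y - 1 - (η / 2) N ≥ Y - η N` elements (`1 ≤ (η / 2) N` since `N ≥ 1 / ε`), and the `B k` are
pairwise disjoint. -/
def S_nb : Prop := ∀ (R : ℕ) (η : ℝ), 0 < η → ∃ ε > (0 : ℝ),
  ∀ (U κ : Type) [Fintype U] [DecidableEq U] [Fintype κ] (B : κ → Finset U) (ω : κ → ℝ),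
    (∀ k, 0 ≤ ω k) → (∀ k, ω k ≠ 0 → 1 ≤ (B k).card ∧ (B k).card ≤ R) →
    (∀ u, ∑ k, (if u ∈ B k then ω k else 0) ≤ 1) →
    (∀ u v, u ≠ v → ∑ k, (if u ∈ B k ∧ v ∈ B k then ω k else 0) ≤ ε) →
    1 / ε ≤ (Fintype.card U : ℝ) →
    ∃ I : Finset κ, (∀ i ∈ I, ω i ≠ 0) ∧ (∀ i ∈ I, ∀ j ∈ I, i ≠ j → Disjoint (B i) (B j)) ∧
      ∑ k, ω k - η * Fintype.card U ≤ I.card

/-! ## E. sampling -/

/-- [cnt] No hypotheses. Averages over tuples.

PROOF. `(Fin q → V) ≃ (Fin m → V) × ({j // j ∉ range e} → V)` (`Equiv.piEquivPiSubtypeProd` and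
`Equiv.ofInjective`), so the left sum is `n ^ (q - m) * ∑_g φ g`, `m ≤ q`. (Or: by induction on `q`.) -/
def S_cnt : Prop := ∀ (V : Type) [Fintype V] (q m : ℕ) (e : Fin m → Fin q), Function.Injective e →
  ∀ φ : (Fin m → V) → ℝ,
    (∑ f : Fin q → V, φ (fun a => f (e a))) * (Fintype.card V : ℝ) ^ m =
      (∑ g : Fin m → V, φ g) * (Fintype.card V : ℝ) ^ q

/-- [hit] No hypotheses. Random centres.

PROOF. `ρ ≤ 1` may be assumed (replace `ρ` by `min ρ 1`; the hypothesis on `R` is weaker then). Choose `K` with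
`(1 - ρ) ^ K ≤ τ`. For `g : Fin K → V` let `miss g t` mean `∀ i, g i ∉ R t`. The number of the `g` which miss `t` is
`(n - #R t) ^ K ≤ ((1 - ρ) n) ^ K ≤ τ n ^ K` if `w t ≠ 0`. So
`∑_g ∑_t (if miss g t then w t else 0) ≤ τ n ^ K ∑ w`, and some `g` has `∑_t … ≤ τ ∑ w` (`n ^ K > 0`
functions `g`). `X` = the range of `g`. -/
def S_hit : Prop := ∀ ρ τ : ℝ, 0 < ρ → 0 < τ → ∃ K : ℕ, ∀ (V T : Type) [Fintype V] [Nonempty V]
  [Fintype T] (w : T → ℝ) (R : T → Finset V), (∀ t, 0 ≤ w t) →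
  (∀ t, w t ≠ 0 → ρ * Fintype.card V ≤ ((R t).card : ℝ)) →
  ∃ X : Finset V, X.card ≤ K ∧
    ∑ t, (open scoped Classical in if ∃ x ∈ X, x ∈ R t then 0 else w t) ≤ τ * ∑ t, w t

/-- [rt] Hypotheses `S_cnt`, `S_hit`. The centres serve almost all samples.

PROOF. `q = 0`: the set is empty (`X = ∅`). Let `q ≥ 1`, `ρ = δ / (2 q ^ 3)`, `τ = δ / (4 q ^ 2)`, `K` from
`S_hit`. `R p p' = {x | G.Adj x p ∧ G.Adj p' x}`, `(p, p')` is rich if `ρ n ≤ #R p p'`. Apply `S_hit` to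
`T = (V × V) ⊕ V` with the sets `R p p'` and `R p p`, and the weights `1 / n ^ 2` for the rich pairs, `1 / n` for the
`p` with `(p, p)` rich, `0` for the others; `∑ w ≤ 2`. We get `X`, `#X ≤ K`, such that the number of the rich
missed pairs is `≤ 2 τ n ^ 2` and the number of the `p` with `(p, p)` rich and missed is `≤ 2 τ n`
(missed: `X ∩ R = ∅`). Now count the bad `f`, i.e. those with `i, j, l`, `f l ∈ R (f i) (f j)`,
`R (f i) (f j)` missed. `l ≠ i` and `l ≠ j` as `G` is loopless (`f l → f i`, `f j → f l`). Case 1,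
`(f i, f j)` rich: for `i ≠ j` the number of the `f` is `≤ 2 τ n ^ 2 * n ^ (q - 2)` (`S_cnt`, `m = 2`), for
`i = j` it is `≤ 2 τ n * n ^ (q - 1)` (`m = 1`): together `≤ q ^ 2 * 2 τ n ^ q = (δ / 2) n ^ q`. Case 2, not
rich: for `i, j, l` different `S_cnt` with `m = 3` and
`#{(p, p', x) | (p, p') not rich, x ∈ R p p'} ≤ n ^ 2 * ρ n` gives `≤ ρ n ^ q`; for `i = j ≠ l` `m = 2` and
`#{(p, x) | (p, p) not rich, x ∈ R p p} ≤ ρ n ^ 2` gives `≤ ρ n ^ q`; together `≤ q ^ 3 ρ n ^ q =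
(δ / 2) n ^ q`. -/
def S_rt : Prop := ∀ (q : ℕ) (δ : ℝ), 0 < δ → ∃ K : ℕ, ∀ (V : Type) [Fintype V] [Nonempty V]
  (G : Digraph V), (∀ v, ¬ G.Adj v v) → ∃ X : Finset V, X.card ≤ K ∧
    ({f : Fin q → V | ∃ i j l, G.Adj (f l) (f i) ∧ G.Adj (f j) (f l) ∧
      ∀ x ∈ X, ¬ (G.Adj x (f i) ∧ G.Adj (f j) x)}.ncard : ℝ) ≤ δ * (Fintype.card V : ℝ) ^ q

/-- [ch] Hypothesis `S_cnt`. Degrees in the sample (Chebyshev).

PROOF. `n = card V`, `D v` the out-degree, `φ v w = [G.Adj v w] - D v / n`, so `∑_w φ v w = 0` and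
`|φ| ≤ 1`. Fix `i`. For `j, k ≠ i`, `j ≠ k`: `∑_f φ (f i) (f j) * φ (f i) (f k) = 0` (`S_cnt`, `m = 3`, sum over
the value at `k` first); for `j = k` it is `≤ n ^ q`. So `∑_f (∑_(j ≠ i) φ (f i) (f j)) ^ 2 ≤ q n ^ q`. Let
`d_i f = #{j | G.Adj (f i) (f j)}` (the index `j = i` does not count, `G` is loopless), so
`∑_(j ≠ i) φ (f i) (f j) = d_i f - (q - 1) D (f i) / n`. If `d_i f < (r / n - e) q` then this is
`< (r / n - e) q - (q - 1) r / n ≤ 1 - e q ≤ - e q / 2` (`r / n ≤ 1` because `r ≤ D ≤ n`; `2 ≤ e q`). So the number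
of the `f` for which `i` is bad in this sense is `≤ q n ^ q / (e q / 2) ^ 2 = 4 n ^ q / (e ^ 2 q)`. Sum over
`i`: the sum over `f` of the number of bad `i` is `≤ 4 n ^ q / e ^ 2`; the number of the `f` with more than `e q` bad
indices is at most `(4 n ^ q / e ^ 2) / (e q)`. -/
def S_ch : Prop := ∀ (q : ℕ) (e : ℝ), 0 < e → 2 ≤ e * q → ∀ (V : Type) [Fintype V] [Nonempty V]
  (G : Digraph V) (r : ℕ), (∀ v, ¬ G.Adj v v) → (∀ v, r ≤ {w | G.Adj v w}.ncard) →
  ({f : Fin q → V | e * q < ({i : Fin q | (({j : Fin q | G.Adj (f i) (f j)}.ncard : ℕ) : ℝ) <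
    (r / Fintype.card V - e) * q}.ncard : ℝ)}.ncard : ℝ) ≤
    4 / (e ^ 3 * q) * (Fintype.card V : ℝ) ^ q

/-- [gd] Hypotheses `S_cnt`, `S_rt`, `S_ch`. Almost all samples are good.

PROOF. `K` from `S_rt` with `δ / 4`; `n₀` with `n₀ ≥ 1`, `q ^ 2 / n₀ ≤ δ / 8`, `q K / n₀ ≤ δ / 8`. A sample
which is not good has a pair `i ≠ j` with `f i = f j` (number `≤ q ^ 2 n ^ (q - 1)`, `S_cnt` with `m = 2`), or
an `i` with `f i ∈ X` (number `≤ q K n ^ (q - 1)`, `m = 1`), or fails `deg` (`S_ch`: number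
`≤ 4 / (e ^ 3 q) n ^ q ≤ (δ / 2) n ^ q`), or fails `root` (`≤ (δ / 4) n ^ q`). -/
def S_gd : Prop := ∀ (q : ℕ) (e δ : ℝ), 0 < e → 0 < δ → 2 ≤ e * q → 4 / (e ^ 3 * q) ≤ δ / 2 →
  ∃ K n₀ : ℕ, ∀ (V : Type) [Fintype V] (G : Digraph V), n₀ ≤ Fintype.card V →
    (∀ v, ¬ G.Adj v v) → ∀ r : ℕ, (∀ v, r ≤ {w | G.Adj v w}.ncard) →
    ∃ X : Finset V, X.card ≤ K ∧
      ({f : Fin q → V | ¬ Good G X (r / Fintype.card V - e) e f}.ncard : ℝ) ≤
        δ * (Fintype.card V : ℝ) ^ q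

/-- [yf] Hypotheses `S_sw`, `S_sub`. The weights of one good sample.

PROOF. `H` = the digraph on `Fin q` with `Adj i j := G.Adj (f i) (f j)` (loopless). `I` = the set of the `i` with at least
`β q` out-neighbours in `H`; by `deg` at most `e q < q` indices are not in `I`, so `I` is not empty and every
`i ∈ I` has at least `β q - e q` out-neighbours in `I`, a number `≥ r' = ⌈(β - e) q⌉₊`. `y` from `S_sub` for
`H, I, r'`: `c (β - e) q ≤ c r' ≤ ∑ y`. Let `y C l ≠ 0`: `IsCyc H C`, `l ∈ C`, so `2 ≤ C.card` (the cycle has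
`k ≥ 2` vertices) and `IsCyc G (C.image f)` (`f` injective: compose). `S_sw` for `C.image f` and `f l`: `p = f i`,
`p' = f j` with `i, j ∈ C`, `i, j ≠ l`, `f l → p`, `p' → f l`; by `root` there is `x ∈ X` with `x → p`,
`p' → x`; `x ∉ (C.image f).erase (f l)` by `avoid`; so `IsCyc G (insert x ((C.image f).erase (f l)))`, and
`(C.image f).erase (f l) = (C.erase l).image f` by injectivity. -/
def S_yf : Prop := ∀ c : ℝ, 0 ≤ c → FracHR c → ∀ (q : ℕ) (β e : ℝ), 0 < q → e < 1 →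
  ∀ (V : Type) [Fintype V] [DecidableEq V] (G : Digraph V) (X : Finset V) (f : Fin q → V),
    (∀ v, ¬ G.Adj v v) → Good G X β e f →
    ∃ y : Finset (Fin q) → Fin q → ℝ, (∀ C l, 0 ≤ y C l) ∧
      (∀ C l, y C l ≠ 0 → l ∈ C ∧ 2 ≤ C.card ∧
        ∃ x ∈ X, IsCyc G (insert x ((C.erase l).image f))) ∧
      (∀ i, ∑ C : Finset (Fin q), ∑ l : Fin q, (if i ∈ C ∧ i ≠ l then y C l else 0) ≤ 1) ∧
      c * ((β - e) * q) ≤ ∑ C : Finset (Fin q), ∑ l : Fin q, y C l

/-- [ld] Hypothesis `S_cnt`. Loads and codegrees of the averaged weights.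

PROOF. `s = n / (q n ^ q)`. `u ∈ (C.erase l).image f` implies that there is an `i` with `f i = u`, `i ∈ C`, `i ≠ l`. So
the load of `u` is `≤ s ∑_f ∑_i [f i = u] ∑_(C, l) [i ∈ C, i ≠ l] y f C l ≤ s ∑_f ∑_i [f i = u] =
s q n ^ (q - 1) = 1` (`S_cnt`, `m = 1`, `φ g = [g 0 = u]`). For `u ≠ v` the codegree is
`≤ s ∑_f ∑_(i ≠ j) [f i = u] [f j = v] * (load of i) ≤ s q ^ 2 n ^ (q - 2) = q / n` (`S_cnt`, `m = 2`;
`i ≠ j` because `u ≠ v`; if `q = 1` the sum is empty). -/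
def S_ld : Prop := ∀ (V : Type) [Fintype V] [DecidableEq V] [Nonempty V] (q : ℕ)
  (y : (Fin q → V) → Finset (Fin q) → Fin q → ℝ), 0 < q → (∀ f C l, 0 ≤ y f C l) →
  (∀ f i, ∑ C : Finset (Fin q), ∑ l : Fin q, (if i ∈ C ∧ i ≠ l then y f C l else 0) ≤ 1) →
  (∀ u : V, ∑ k : (Fin q → V) × Finset (Fin q) × Fin q,
    (if u ∈ (k.2.1.erase k.2.2).image k.1 then y k.1 k.2.1 k.2.2 *
      ((Fintype.card V : ℝ) / (q * (Fintype.card V : ℝ) ^ q)) else 0) ≤ 1) ∧
  (∀ u v : V, u ≠ v → ∑ k : (Fin q → V) × Finset (Fin q) × Fin q,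
    (if u ∈ (k.2.1.erase k.2.2).image k.1 ∧ v ∈ (k.2.1.erase k.2.2).image k.1 then
      y k.1 k.2.1 k.2.2 *
      ((Fintype.card V : ℝ) / (q * (Fintype.card V : ℝ) ^ q)) else 0) ≤
      q / (Fintype.card V : ℝ))

/-- [de] Hypotheses `S_nb`, `S_gd`, `S_yf`, `S_ld`. THEOREM 2 from the fractional form.

PROOF. If `c ≤ 0` take `K = 0`, `n₀ = 0`, `X = ∅`, `k = 0`. Let `c > 0`; we may suppose `α ≤ 1` (otherwise take
`n₀ = 1`: there is no such `G`, as `r ≤ n` for `n ≥ 1`). Put `e = min (min (α / 4) (1 / 2)) (ε α / (8 (c + 1)))`,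
`δ = min 1 (ε / (2 (c + 1)))`, `η = ε α / 4`, `q` large with `q ≥ 1`, `2 ≤ e q`, `4 / (e ^ 3 q) ≤ δ / 2`; `K'`, `n₀'`
from `S_gd`; `ε'` from `S_nb` with `R = q`, `η`. `n₀ ≥ n₀', 1, 1 / ε', q / ε'`; `K = max K' q`. Given `V, G, r`
with `n ≥ n₀`: `X` from `S_gd`. For good `f` let `y f` be the weights of `S_yf` with `β = r / n - e`, for the other `f`
`y f = 0`. `κ = (Fin q → V) × Finset (Fin q) × Fin q`, `B (f, C, l) = (C.erase l).image f`,
`ω (f, C, l) = y f C l * s`, `s = n / (q n ^ q)`. If `ω ≠ 0` then `y ≠ 0`, `f` is good, `C.erase l` is not empty and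
has at most `q` elements. Loads and codegrees (`≤ q / n ≤ ε'`): `S_ld`. Total: `β - e = r / n - 2 e ≥ 0` (as
`r / n ≥ α ≥ 4 e`), so `∑ ω ≥ s * (1 - δ) n ^ q * c (r / n - 2 e) q = (1 - δ) c (r - 2 e n) ≥
c r - δ c r - 2 e c n ≥ c r - (ε / 2) r - (ε α / 4) n`. `S_nb` gives `I` with
`#I ≥ ∑ ω - (ε α / 4) n ≥ (c - ε) r` (`α n ≤ r`). For `i = (f, C, l) ∈ I` choose `x_i ∈ X` with
`C_i = insert x_i (B i)` a directed cycle. `B i ∩ X = ∅` by `avoid` (`f` is good), so `x_i` is the only vertex of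
`C_i` in `X`; `#C_i ≤ (q - 1) + 1 = q`. For `i ≠ j` a common vertex of `C_i` and `C_j` which is not in `X` would be
in `B i ∩ B j = ∅`. Enumerate `I` by `Fin #I` (`I.equivFin`). -/
def S_de : Prop := ∀ c : ℝ, FracHR c → DenseHR c

/-- [as] No hypotheses.

PROOF. `n₀` from `DenseHR c`. For `l` let `x` be the only vertex of `C l` in `X`; every vertex of `C l` which is in some
`C i`, `i < l`, is in `X`, so it is `x`: the intersection is a subset of `{x}`. -/
def S_as : Prop := ∀ c : ℝ, DenseHR c → AsymHR c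

/-- [bl] Hypotheses `S_ic`, `S_cw`. Blow-ups: from the asymptotic form to the dual form.

PROOF. Given `V, G, r, z` as in `DualHR`. `r = 0` is trivial. Let `N = card V`, `α = r / N > 0`. It is enough to
show `(c - ε) * r ≤ ∑ z` for all `ε > 0`. `n₀` from `AsymHR c` for `α, ε`; `m = n₀ + 1`. `G'` on `V × Fin m`:
`Adj (u, i) (v, j) := G.Adj u v`: loopless, `card = N m ≥ n₀` (`N ≥ 1`), out-degrees `= m * (out-degree in G) ≥ r m`,
`α * (N m) = r m`. So there are `k ≥ (c - ε) r m` directed cycles `C_l` of `G'`, each sharing at most one vertex with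
`U_l = ⋃_(i < l) C_i`. `N_l = C_l \ U_l`: pairwise disjoint. Claim: `1 ≤ ∑_(w ∈ N_l) z w.1`. There is `x ∈ C_l` with
`C_l.erase x ⊆ N_l` (`x` the common vertex with `U_l`, or any vertex of `C_l` if there is none; `C_l` is not
empty). `S_ic`: a list `l'` with `CycL G' x l'`, `l'.toFinset = C_l.erase x`. The list `l'.map Prod.fst` is the
inner part of a closed walk of `G` at `x.1` (`List.isChain_map`), so `S_cw` gives
`1 ≤ ((l'.map Prod.fst).map z).sum = ∑_(w ∈ C_l.erase x) z w.1` (`Nodup`) `≤ ∑_(w ∈ N_l) z w.1`. Sum over `l`: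
`k ≤ ∑_(w : V × Fin m) z w.1 = m ∑ z`. So `(c - ε) r m ≤ m ∑ z`. -/
def S_bl : Prop := ∀ c : ℝ, AsymHR c → DualHR c

/-! ## F. the theorem -/

/-- [fin] Hypotheses `S_th`, `S_du`, `S_de`, `S_as`, `S_bl`. The final theorem. -/
def S_fin : Prop := FracHR (1 / (2 * Real.log 2)) ∧ DenseHR (1 / (2 * Real.log 2)) ∧
  ∀ c : ℝ, (FracHR c ↔ DenseHR c) ∧ (FracHR c ↔ AsymHR c)

end Pool.Agent.MP_278fbd_co.HR
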